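import Mathlib

set_option autoImplicit false

namespace Pool.Agent.R5.AO

open SimpleGraph

variable {V : Type*} {G : SimpleGraph V}

/-- non-backtracking walks -/
def NB {a b : V} (w : G.Walk a b) : Prop := w.edges.IsChain (· ≠ ·)

theorem nb_nil (a : V) : NB (Walk.nil : G.Walk a a) := by
  simp [NB]

theorem nb_cons {a b c : V} (h : G.Adj a b) (p : G.Walk b c) :
    NB (Walk.cons h p) ↔ (¬ p.Nil → p.snd ≠ a) ∧ NB p := by
  cases p with
  | nil => simp [NB]
  | cons h' q =>
    simp only [NB, Walk.edges_cons, List.isChain_cons_cons, Walk.not_nil_cons, not_false_eq_true,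
      forall_true_left, Walk.snd_cons, ne_eq]
    rw [not_iff_not.mpr (show s(a, b) = s(b, _) ↔ _ = a from ?_)]
    constructor
    · intro hh
      rw [Sym2.eq_iff] at hh
      rcases hh with ⟨h1, h2⟩ | ⟨h1, h2⟩
      · exact absurd h1 h.ne
      · exact h1.symm
    · intro hh
      subst hh
      exact Sym2.eq_swap

theorem NB.of_cons {a b c : V} {h : G.Adj a b} {p : G.Walk b c} (H : NB (Walk.cons h p)) : NB p :=
  ((nb_cons h p).1 H).2

theorem NB.take {a b : V} {w : G.Walk a b} (H : NB w) (n : ℕ) : NB (w.take n) := by
  unfold NB at *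
  rw [Walk.edges_take]
  exact H.take n

/-- all cycles have length at least `g` -/
def Girth (G : SimpleGraph V) (g : ℕ) : Prop := ∀ (a : V) (c : G.Walk a a), c.IsCycle → g ≤ c.length

theorem girth_iff (g : ℕ) : Girth G g ↔ (g : ℕ∞) ≤ G.egirth := by
  rw [le_egirth]
  constructor
  · intro h a w hw
    exact_mod_cast h a w hw
  · intro h a w hw
    exact_mod_cast h a w hw

theorem nb_path {g : ℕ} (hg : Girth G g) : ∀ {a b : V} (w : G.Walk a b), NB w → w.length < g → w.IsPath := by
  intro a b w
  induction w with
  | nil => intro _ _; exact Walk.IsPath.nil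
  | @cons u v b' h p ih =>
    intro H hl
    rw [Walk.length_cons] at hl
    have hp := ih H.of_cons (by omega)
    rw [Walk.cons_isPath_iff]
    refine ⟨hp, fun hu => ?_⟩
    classical
    have hq : (p.takeUntil u hu).IsPath := hp.takeUntil hu
    by_cases hm : s(u, v) ∈ (p.takeUntil u hu).edges
    · -- the first step of p goes back
      have hsnd : ¬ p.Nil → p.snd ≠ u := ((nb_cons h p).1 H).1
      cases p with
      | nil =>
        rw [Walk.support_nil, List.mem_singleton] at hu
        exact h.ne hu
      | @cons _ x _ h' q =>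
        have hx : x ≠ u := by
          have h3 := hsnd (by simp)
          rwa [Walk.snd_cons] at h3
        have hm2 : s(u, v) ∈ (Walk.cons h' q).edges := Walk.edges_takeUntil_subset_edges _ hu hm
        rw [Walk.edges_cons, List.mem_cons] at hm2
        rcases hm2 with hm2 | hm2
        · rw [Sym2.eq_iff] at hm2
          rcases hm2 with ⟨h1, h2⟩ | ⟨h1, h2⟩
          · exact h.ne h1
          · exact hx h1.symm
        · have := q.snd_mem_support_of_mem_edges hm2
          rw [Walk.cons_isPath_iff] at hp
          exact hp.2 this
    · have hc : (Walk.cons h (p.takeUntil u hu)).IsCycle := by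
        rw [Walk.cons_isCycle_iff]
        exact ⟨hq, hm⟩
      have h1 := hg _ _ hc
      rw [Walk.length_cons] at h1
      have h2 := p.length_takeUntil_le_length hu
      omega

theorem nb_closed {g : ℕ} (hg : Girth G g) {a : V} (w : G.Walk a a) (H : NB w) (h0 : 0 < w.length) :
    g ≤ w.length := by
  by_contra hlt
  push Not at hlt
  have hp := nb_path hg w H hlt
  have := Walk.isPath_iff_nil.1 hp
  rw [← Walk.length_eq_zero_iff] at this
  omega

theorem NB.of_isTrail {a b : V} {w : G.Walk a b} (h : w.IsTrail) : NB w := by
  unfold NB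
  exact h.edges_nodup.isChain

/-- locally injective maps do not decrease the girth -/
theorem girth_of_map {V' : Type*} {G' : SimpleGraph V'} (f : G' →g G)
    (hf : ∀ x y z, G'.Adj x y → G'.Adj y z → x ≠ z → f x ≠ f z) {g : ℕ} (hg : Girth G g) : Girth G' g := by
  have key : ∀ {a b : V'} (w : G'.Walk a b), NB w → NB (w.map f) := by
    intro a b w
    induction w with
    | nil => intro _; exact nb_nil _
    | @cons u v b' h p ih =>
      intro H
      rw [Walk.map_cons, nb_cons]
      refine ⟨fun hn => ?_, ih H.of_cons⟩
      have h1 : ¬ p.Nil := by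
        intro hh
        apply hn
        cases p with
        | nil => simp
        | cons _ _ => simp at hh
      have h2 := ((nb_cons h p).1 H).1 h1
      cases p with
      | nil => simp at h1
      | @cons _ x _ h' q =>
        simp only [Walk.map_cons, Walk.snd_cons] at h2 ⊢
        exact (hf u v x h h' (Ne.symm h2)).symm
  intro a c hc
  have h1 := nb_closed hg (c.map f) (key c (NB.of_isTrail hc.isTrail)) (by
    rw [Walk.length_map]
    have := hc.three_le_length
    omega)
  rwa [Walk.length_map] at h1

end Pool.Agent.R5.AO
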