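import Mathlib
import Pool.Agent.R5.AO.NB

set_option autoImplicit false

namespace Pool.Agent.R5.AO

open SimpleGraph

variable {V : Type*}

theorem exists_nb [Finite V] (G : SimpleGraph V) (h2 : ∀ v, 2 ≤ (G.neighborSet v).ncard) (v0 : V) (n : ℕ) :
    ∃ (a b : V) (p : G.Walk a b), NB p ∧ p.length = n := by
  induction n with
  | zero => exact ⟨v0, v0, Walk.nil, nb_nil _, rfl⟩
  | succ n ih =>
    obtain ⟨a, b, p, hp, hl⟩ := ih
    obtain ⟨x, hx, hne⟩ := Set.exists_ne_of_one_lt_ncard (s := G.neighborSet a) (by have := h2 a; omega) p.snd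
    have hx' : G.Adj x a := (show G.Adj a x from hx).symm
    refine ⟨x, b, Walk.cons hx' p, ?_, by rw [Walk.length_cons, hl]⟩
    rw [nb_cons]
    exact ⟨fun _ => hne.symm, hp⟩

/-- a non-empty finite graph of minimum degree at least two has a cycle -/
theorem not_acyclic [Fintype V] (G : SimpleGraph V) (h2 : ∀ v, 2 ≤ (G.neighborSet v).ncard) (v0 : V) :
    ¬ G.IsAcyclic := by
  intro hac
  obtain ⟨a, b, p, hp, hl⟩ := exists_nb G h2 v0 (Fintype.card V)
  have hg : Girth G (Fintype.card V + 1) := fun a c hc => absurd hc (hac c)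
  have := (nb_path hg p hp (by omega)).length_lt
  omega

theorem cycle_length_le [Fintype V] {G : SimpleGraph V} {a : V} {c : G.Walk a a} (hc : c.IsCycle) :
    c.length ≤ Fintype.card V := by
  have h1 := hc.isPath_tail.length_lt
  have h2 := Walk.length_tail_add_one (p := c) (by
    intro hn
    have := hc.three_le_length
    rw [Walk.length_eq_zero_iff.2 hn] at this
    omega)
  omega

end Pool.Agent.R5.AO
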