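import Mathlib
import Pool.Agent.R5.AO.NB

set_option autoImplicit false

namespace Pool.Agent.R5.AO

open SimpleGraph

variable {V : Type*}

/-- data for the removal of far apart edges and the local reconnection of the graph -/
structure Surg (G : SimpleGraph V) (D : ℕ) where
  R : Set V
  ne : V → V → Prop
  ne_symm : ∀ {x y}, ne x y → ne y x
  ne_notMem : ∀ {x y}, ne x y → x ∉ R
  ne_spec : ∀ {x y}, ne x y → ∃ a b, a ∈ R ∧ b ∈ R ∧ G.Adj x a ∧ G.Adj a b ∧ G.Adj b y
  uniq : ∀ {x a a'}, x ∉ R → G.Adj x a → a ∈ R → G.Adj x a' → a' ∈ R → a = a'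
  ne_unique : ∀ {x y y'}, ne x y → ne x y' → y = y'
  ne_exists : ∀ {x a}, x ∉ R → G.Adj x a → a ∈ R → ∃ y, ne x y
  sep : ∀ {a a'}, a ∈ R → a' ∈ R → a = a' ∨ G.Adj a a' ∨ ∀ p : G.Walk a a', D ≤ p.length

variable {G : SimpleGraph V} {D : ℕ}

theorem Surg.ne_ne (S : Surg G D) {x y : V} (h : S.ne x y) : x ≠ y := by
  rintro rfl
  obtain ⟨a, b, ha, hb, h1, h2, h3⟩ := S.ne_spec h
  exact h2.ne (S.uniq (S.ne_notMem h) h1 ha h3.symm hb)

/-- the new graph -/
def Surg.graph (S : Surg G D) : SimpleGraph {x : V // x ∉ S.R} where
  Adj x y := G.Adj x.1 y.1 ∨ S.ne x.1 y.1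
  symm := by
    constructor
    rintro x y (h | h)
    · exact Or.inl h.symm
    · exact Or.inr (S.ne_symm h)
  loopless := by
    constructor
    rintro x (h | h)
    · exact h.ne rfl
    · exact S.ne_ne h rfl

theorem Surg.lift (S : Surg G D) {g h : ℕ} (hg : Girth G g) (h1 : 1 ≤ h) (hgh : h + 2 ≤ g)
    (hD : h + 1 ≤ D) : ∀ {x y : {x : V // x ∉ S.R}} (w : S.graph.Walk x y), NB w →
    ∃ (v : G.Walk x.1 y.1) (k t : ℕ), NB v ∧ v.length = w.length + 2 * k ∧ (w.Nil → v.Nil) ∧
      (¬ w.Nil → v.snd = w.snd.1 ∨ (v.snd ∈ S.R ∧ S.ne x.1 w.snd.1)) ∧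
      (k = 0 ∨ (h * k + t ≤ w.length + (h - 1) ∧ t + 1 ≤ v.length ∧ v.getVert (t + 1) ∈ S.R)) := by
  intro x y w
  induction w with
  | nil =>
    intro _
    exact ⟨Walk.nil, 0, 0, nb_nil _, by simp, by simp, by simp, Or.inl rfl⟩
  | @cons x0 x y e w ih =>
    intro H
    obtain ⟨H1, H2⟩ := (nb_cons e w).1 H
    obtain ⟨v, k, t, hv, hl, hn, hs, hk⟩ := ih H2
    have hnn : ¬ v.Nil → ¬ w.Nil := fun a b => a (hn b)
    by_cases he : G.Adj x0.1 x.1
    · refine ⟨Walk.cons he v, k, t + 1, ?_, ?_, ?_, ?_, ?_⟩
      · rw [nb_cons]
        refine ⟨fun hvn => ?_, hv⟩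
        rcases hs (hnn hvn) with h2 | ⟨h2, h3⟩
        · rw [h2]
          intro hh
          exact H1 (hnn hvn) (Subtype.ext hh)
        · intro hh
          rw [hh] at h2
          exact x0.2 h2
      · simp only [Walk.length_cons]; omega
      · simp
      · intro _
        left
        rw [Walk.snd_cons, Walk.snd_cons]
      · rcases hk with hk | ⟨hk1, hk2, hk3⟩
        · exact Or.inl hk
        · refine Or.inr ⟨?_, ?_, ?_⟩
          · simp only [Walk.length_cons]; omega
          · simp only [Walk.length_cons]; omega
          · rw [Walk.getVert_cons_succ]; exact hk3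
    · have hne : S.ne x0.1 x.1 := by
        rcases e with e | e
        · exact absurd e he
        · exact e
      obtain ⟨a, b, ha, hb, e1, e2, e3⟩ := S.ne_spec hne
      -- the walk from `b`
      have hW : NB (Walk.cons e3 v) := by
        rw [nb_cons]
        refine ⟨fun hvn => ?_, hv⟩
        rcases hs (hnn hvn) with h2 | ⟨h2, h3⟩
        · rw [h2]
          intro hh
          rw [← hh] at hb
          exact w.snd.2 hb
        · exact absurd (Subtype.ext (S.ne_unique h3 (S.ne_symm hne))) (H1 (hnn hvn))
      refine ⟨Walk.cons e1 (Walk.cons e2 (Walk.cons e3 v)), k + 1, 0, ?_, ?_, ?_, ?_, ?_⟩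
      · rw [nb_cons, nb_cons]
        refine ⟨fun _ => ?_, fun _ => ?_, hW⟩
        · rw [Walk.snd_cons]
          intro hh
          rw [hh] at hb
          exact x0.2 hb
        · rw [Walk.snd_cons]
          intro hh
          rw [← hh] at ha
          exact x.2 ha
      · simp only [Walk.length_cons]; omega
      · simp
      · intro _
        right
        rw [Walk.snd_cons, Walk.snd_cons]
        exact ⟨ha, hne⟩
      · right
        refine ⟨?_, ?_, ?_⟩
        · rcases hk with hk | ⟨hk1, hk2, hk3⟩
          · subst hk
            simp only [Walk.length_cons]; omega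
          · have ht : h - 1 ≤ t := by
              by_contra hlt
              push Not at hlt
              set W := Walk.cons e3 v with hWdef
              have hWg : W.getVert (t + 2) ∈ S.R := by
                rw [hWdef, Walk.getVert_cons_succ]; exact hk3
              set p := W.take (t + 2) with hp
              have hpn : NB p := hW.take _
              have hWl : W.length = v.length + 1 := by rw [hWdef, Walk.length_cons]
              have hpl : p.length = t + 2 := by
                rw [hp, Walk.take_length]
                omega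
              rcases S.sep hb hWg with h2 | h2 | h2
              · have hpath := nb_path hg p hpn (by omega)
                have h5 : p.getVert 0 = p.getVert p.length := by
                  rw [Walk.getVert_length, Walk.getVert_zero]
                  exact h2
                have h6 := hpath.getVert_injOn (by simp : (0 : ℕ) ∈ {i | i ≤ p.length}) (by simp : p.length ∈ {i | i ≤ p.length}) h5
                omega
              · have h3 : NB (Walk.cons h2.symm p) := by
                  rw [nb_cons]
                  refine ⟨fun _ => ?_, hpn⟩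
                  have h4 : p.snd = x.1 := by
                    rw [Walk.snd, hp, Walk.take_getVert, hWdef]
                    have : min (t + 2) 1 = 0 + 1 := by omega
                    rw [this, Walk.getVert_cons_succ, Walk.getVert_zero]
                  rw [h4]
                  intro hh
                  rw [← hh] at hWg
                  exact x.2 hWg
                have h4 := nb_closed hg _ h3 (by rw [Walk.length_cons]; omega)
                rw [Walk.length_cons, hpl] at h4
                omega
              · have := h2 p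
                omega
            simp only [Walk.length_cons, mul_add]
            omega
        · simp only [Walk.length_cons]; omega
        · rw [Walk.getVert_cons_succ, Walk.getVert_zero]
          exact ha

/-- the girth of the new graph -/
theorem Surg.girth (S : Surg G D) {g h : ℕ} (hg : Girth G g) (h1 : 1 ≤ h) (hgh : h + 2 ≤ g)
    (hD : h + 1 ≤ D) {x : {x : V // x ∉ S.R}} (c : S.graph.Walk x x) (hc : c.IsCycle) :
    h * g ≤ (h + 2) * c.length + 2 * h := by
  obtain ⟨v, k, t, hv, hl, -, -, hk⟩ := S.lift hg h1 hgh hD c (NB.of_isTrail hc.isTrail)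
  have h3 := hc.three_le_length
  have h4 := nb_closed hg v hv (by omega)
  rcases hk with hk | ⟨hk, -, -⟩
  · subst hk
    have : h * g ≤ h * c.length := Nat.mul_le_mul_left _ (by omega)
    nlinarith
  · have : h * g ≤ h * (c.length + 2 * k) := Nat.mul_le_mul_left _ (by omega)
    have h5 : h * (c.length + 2 * k) = h * c.length + 2 * (h * k) := by ring
    have h6 : (h + 2) * c.length + 2 * h = h * c.length + 2 * c.length + 2 * h := by ring
    omega

end Pool.Agent.R5.AO
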