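import Mathlib
import Pool.Agent.R5.AO.Surg

set_option autoImplicit false

namespace Pool.Agent.R5.AO

open SimpleGraph

variable {V : Type*} {G : SimpleGraph V} {D : ℕ}

theorem no_triangle {g : ℕ} (hg : Girth G g) (h4 : 4 ≤ g) {x y z : V} (h1 : G.Adj x y)
    (h2 : G.Adj y z) (h3 : G.Adj z x) : False := by
  have hn : NB (Walk.cons h1 (Walk.cons h2 (Walk.cons h3 Walk.nil))) := by
    rw [nb_cons, nb_cons, nb_cons]
    refine ⟨fun _ => ?_, fun _ => ?_, fun h => ?_, nb_nil _⟩
    · rw [Walk.snd_cons]; exact h3.ne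
    · rw [Walk.snd_cons]; exact h1.ne
    · simp at h
  have := nb_closed hg _ hn (by simp)
  simp only [Walk.length_cons, Walk.length_nil] at this
  omega

theorem Surg.ncard_nbr [Finite V] (S : Surg G D) {g : ℕ} (hg : Girth G g) (h5 : 5 ≤ g)
    (x : {x : V // x ∉ S.R}) : (S.graph.neighborSet x).ncard = (G.neighborSet x.1).ncard := by
  rw [← Set.ncard_image_of_injective _ Subtype.val_injective]
  by_cases hx : ∃ a ∈ S.R, G.Adj x.1 a
  · obtain ⟨a, ha, hxa⟩ := hx
    obtain ⟨y, hy⟩ := S.ne_exists x.2 hxa ha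
    have hyR : y ∉ S.R := S.ne_notMem (S.ne_symm hy)
    have hset : Subtype.val '' (S.graph.neighborSet x) = insert y (G.neighborSet x.1 \ {a}) := by
      ext z
      constructor
      · rintro ⟨z', hz, rfl⟩
        rcases hz with hz | hz
        · right
          refine ⟨hz, ?_⟩
          intro hh
          rw [Set.mem_singleton_iff] at hh
          apply z'.2
          rw [hh]
          exact ha
        · left
          exact (S.ne_unique hz hy)
      · rintro (hz | ⟨hz1, hz2⟩)
        · subst hz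
          exact ⟨⟨z, hyR⟩, Or.inr hy, rfl⟩
        · refine ⟨⟨z, fun hzR => hz2 ?_⟩, Or.inl hz1, rfl⟩
          exact S.uniq x.2 hz1 hzR hxa ha
    rw [hset, Set.ncard_insert_of_notMem, Set.ncard_sdiff_singleton_of_mem (show a ∈ G.neighborSet x.1 from hxa)]
    · have : 0 < (G.neighborSet x.1).ncard := by
        rw [Set.ncard_pos (Set.toFinite _)]
        exact ⟨a, hxa⟩
      omega
    · rintro ⟨hxy, -⟩
      have hxy' : G.Adj x.1 y := hxy
      obtain ⟨a', b', ha', hb', h1, h2, h3⟩ := S.ne_spec hy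
      have hn : NB (Walk.cons h1 (Walk.cons h2 (Walk.cons h3 (Walk.cons hxy'.symm Walk.nil)))) := by
        rw [nb_cons, nb_cons, nb_cons, nb_cons]
        refine ⟨fun _ => ?_, fun _ => ?_, fun _ => ?_, fun h => ?_, nb_nil _⟩
        · rw [Walk.snd_cons]
          intro hh
          rw [hh] at hb'
          exact x.2 hb'
        · rw [Walk.snd_cons]
          intro hh
          rw [← hh] at ha'
          exact hyR ha'
        · rw [Walk.snd_cons]
          intro hh
          rw [← hh] at hb'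
          exact x.2 hb'
        · simp at h
      have := nb_closed hg _ hn (by simp)
      simp only [Walk.length_cons, Walk.length_nil] at this
      omega
  · push Not at hx
    congr 1
    ext z
    constructor
    · rintro ⟨z', hz, rfl⟩
      rcases hz with hz | hz
      · exact hz
      · obtain ⟨a, b, ha, -, h1, -, -⟩ := S.ne_spec hz
        exact absurd h1 (hx a ha)
    · intro hz
      refine ⟨⟨z, fun hzR => hx z hzR hz⟩, Or.inl hz, rfl⟩

theorem Surg.bip (S : Surg G D) (c : V → Bool) (hc : ∀ x y, G.Adj x y → c x ≠ c y) :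
    ∀ x y, S.graph.Adj x y → c x.1 ≠ c y.1 := by
  rintro x y (h | h)
  · exact hc _ _ h
  · obtain ⟨a, b, -, -, h1, h2, h3⟩ := S.ne_spec h
    have e1 := hc _ _ h1
    have e2 := hc _ _ h2
    have e3 := hc _ _ h3
    revert e1 e2 e3
    cases c x.1 <;> cases c a <;> cases c b <;> cases c y.1 <;> simp

theorem exists_surg [Finite V] {δ g : ℕ} (hreg : ∀ v, (G.neighborSet v).ncard = δ) (hδ : 1 ≤ δ)
    (hg : Girth G g) (h4 : 4 ≤ g) (hD : 3 ≤ D) (U : Finset V)
    (hU : ∀ u ∈ U, ∀ u' ∈ U, u ≠ u' → ∀ p : G.Walk u u', D + 2 ≤ p.length) :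
    ∃ S : Surg G D, S.R.ncard = 2 * U.card := by
  classical
  have hU' : ∀ u ∈ U, ∀ u' ∈ U, ∀ p : G.Walk u u', p.length < D + 2 → u = u' := by
    intro u hu u' hu' p hp
    by_contra hne
    have := hU u hu u' hu' hne p
    omega
  have hex : ∀ u, ∃ v, G.Adj u v := by
    intro u
    have : 0 < (G.neighborSet u).ncard := by rw [hreg]; omega
    rw [Set.ncard_pos (Set.toFinite _)] at this
    exact this
  choose τ hτ using hex
  have hf : ∀ u, ∃ f : V → V, Set.BijOn f (G.neighborSet u \ {τ u}) (G.neighborSet (τ u) \ {u}) := by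
    intro u
    have : Nonempty V := ⟨u⟩
    apply (Set.toFinite _).exists_bijOn_of_encard_eq
    rw [← (Set.toFinite _).cast_ncard_eq, ← (Set.toFinite _).cast_ncard_eq,
      Set.ncard_sdiff_singleton_of_mem (show τ u ∈ G.neighborSet u from hτ u),
      Set.ncard_sdiff_singleton_of_mem (show u ∈ G.neighborSet (τ u) from (hτ u).symm), hreg, hreg]
  choose f hf using hf
  -- an element of a site is close to the centre of the site
  have near : ∀ (u a : V), (a = u ∨ a = τ u) → ∃ p : G.Walk u a, p.length ≤ 1 := by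
    rintro u a (rfl | rfl)
    · exact ⟨Walk.nil, by simp⟩
    · exact ⟨Walk.cons (hτ u) Walk.nil, by simp⟩
  have near2 : ∀ (u a x : V), (a = u ∨ a = τ u) → G.Adj a x → ∃ p : G.Walk u x, p.length ≤ 2 := by
    intro u a x h1 h2
    obtain ⟨p, hp⟩ := near u a h1
    refine ⟨p.append (Walk.cons h2 Walk.nil), ?_⟩
    rw [Walk.length_append]
    simp only [Walk.length_cons, Walk.length_nil]
    omega
  have same : ∀ (x a a' u u' : V), u ∈ U → u' ∈ U → (a = u ∨ a = τ u) → (a' = u' ∨ a' = τ u') →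
      G.Adj a x → G.Adj a' x → u = u' := by
    intro x a a' u u' hu hu' h1 h2 h3 h4
    obtain ⟨p, hp⟩ := near2 u a x h1 h3
    obtain ⟨p', hp'⟩ := near2 u' a' x h2 h4
    apply hU' u hu u' hu' (p.append p'.reverse)
    rw [Walk.length_append, Walk.length_reverse]
    omega
  have mem1 : ∀ (u x : V), x ∈ G.neighborSet u \ {τ u} ↔ G.Adj u x ∧ x ≠ τ u := by
    intro u x; simp
  have mem2 : ∀ (u x : V), x ∈ G.neighborSet (τ u) \ {u} ↔ G.Adj (τ u) x ∧ x ≠ u := by
    intro u x; simp
  have fmem : ∀ (u x : V), x ∈ G.neighborSet u \ {τ u} → G.Adj (τ u) (f u x) ∧ f u x ≠ u := by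
    intro u x hx
    exact (mem2 _ _).1 ((hf u).mapsTo hx)
  have tri : ∀ (u x : V), G.Adj u x → G.Adj (τ u) x → False := by
    intro u x h1 h2
    exact no_triangle hg h4 (hτ u) h2 h1.symm
  let R : Set V := {a | ∃ u ∈ U, a = u ∨ a = τ u}
  let ne : V → V → Prop := fun x y => ∃ u ∈ U, (x ∈ G.neighborSet u \ {τ u} ∧ f u x = y) ∨
    (y ∈ G.neighborSet u \ {τ u} ∧ f u y = x)
  have hnotA : ∀ (u x : V), u ∈ U → x ∈ G.neighborSet u \ {τ u} → x ∉ R := by
    rintro u x hu hx ⟨u', hu', h2⟩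
    rw [mem1] at hx
    obtain ⟨p, hp⟩ := near u' x h2
    have h3 : u = u' := by
      apply hU' u hu u' hu' ((Walk.cons hx.1 Walk.nil).append p.reverse)
      rw [Walk.length_append, Walk.length_reverse]
      simp only [Walk.length_cons, Walk.length_nil]
      omega
    subst h3
    rcases h2 with h2 | h2
    · exact hx.1.ne h2.symm
    · exact hx.2 h2
  have hnotB : ∀ (u x : V), u ∈ U → (G.Adj (τ u) x ∧ x ≠ u) → x ∉ R := by
    rintro u x hu hx ⟨u', hu', h2⟩
    obtain ⟨p, hp⟩ := near u' x h2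
    have h3 : u = u' := by
      apply hU' u hu u' hu' ((Walk.cons (hτ u) (Walk.cons hx.1 Walk.nil)).append p.reverse)
      rw [Walk.length_append, Walk.length_reverse]
      simp only [Walk.length_cons, Walk.length_nil]
      omega
    subst h3
    rcases h2 with h2 | h2
    · exact hx.2 h2
    · exact hx.1.ne h2.symm
  -- sites of new edges
  have nesite : ∀ x y u, ((x ∈ G.neighborSet u \ {τ u} ∧ f u x = y) ∨
      (y ∈ G.neighborSet u \ {τ u} ∧ f u y = x)) → ∃ a, (a = u ∨ a = τ u) ∧ G.Adj a x := by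
    rintro x y u (⟨h1, h2⟩ | ⟨h1, h2⟩)
    · exact ⟨u, Or.inl rfl, ((mem1 _ _).1 h1).1⟩
    · refine ⟨τ u, Or.inr rfl, ?_⟩
      rw [← h2]
      exact (fmem u y h1).1
  refine ⟨⟨R, ne, ?_, ?_, ?_, ?_, ?_, ?_, ?_⟩, ?_⟩
  · rintro x y ⟨u, hu, h | h⟩
    · exact ⟨u, hu, Or.inr h⟩
    · exact ⟨u, hu, Or.inl h⟩
  · rintro x y ⟨u, hu, ⟨h1, h2⟩ | ⟨h1, h2⟩⟩
    · exact hnotA u x hu h1
    · rw [← h2]
      exact hnotB u _ hu (fmem u y h1)
  · rintro x y ⟨u, hu, ⟨h1, h2⟩ | ⟨h1, h2⟩⟩
    · refine ⟨u, τ u, ⟨u, hu, Or.inl rfl⟩, ⟨u, hu, Or.inr rfl⟩, ((mem1 _ _).1 h1).1.symm, hτ u, ?_⟩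
      rw [← h2]
      exact (fmem u x h1).1
    · refine ⟨τ u, u, ⟨u, hu, Or.inr rfl⟩, ⟨u, hu, Or.inl rfl⟩, ?_, (hτ u).symm, ((mem1 _ _).1 h1).1⟩
      rw [← h2]
      exact (fmem u y h1).1.symm
  · rintro x a a' hx h1 ⟨u, hu, h2⟩ h3 ⟨u', hu', h4⟩
    have : u = u' := same x a a' u u' hu hu' h2 h4 h1.symm h3.symm
    subst this
    rcases h2 with h2 | h2 <;> rcases h4 with h4 | h4
    · rw [h2, h4]
    · subst h2; subst h4; exact (tri a x h1.symm h3.symm).elim
    · subst h2; subst h4; exact (tri a' x h3.symm h1.symm).elim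
    · rw [h2, h4]
  · rintro x y y' ⟨u, hu, h1⟩ ⟨u', hu', h2⟩
    obtain ⟨a, ha, hax⟩ := nesite x y u h1
    obtain ⟨a', ha', hax'⟩ := nesite x y' u' h2
    have : u = u' := same x a a' u u' hu hu' ha ha' hax hax'
    subst this
    rcases h1 with ⟨h1, h3⟩ | ⟨h1, h3⟩ <;> rcases h2 with ⟨h2, h5⟩ | ⟨h2, h5⟩
    · rw [← h3, ← h5]
    · have e1 := ((mem1 _ _).1 h1).1
      have e2 := (fmem u y' h2).1
      rw [h5] at e2
      exact (tri u x e1 e2).elim
    · have e1 := ((mem1 _ _).1 h2).1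
      have e2 := (fmem u y h1).1
      rw [h3] at e2
      exact (tri u x e1 e2).elim
    · exact (hf u).injOn h1 h2 (by rw [h3, h5])
  · rintro x a hx hxa ⟨u, hu, h1 | h1⟩
    · refine ⟨f u x, u, hu, Or.inl ⟨?_, rfl⟩⟩
      rw [mem1]
      refine ⟨by rw [← h1]; exact hxa.symm, ?_⟩
      intro hh
      exact hx ⟨u, hu, Or.inr hh⟩
    · have hx2 : x ∈ G.neighborSet (τ u) \ {u} := by
        rw [mem2]
        refine ⟨by rw [← h1]; exact hxa.symm, ?_⟩
        intro hh
        exact hx ⟨u, hu, Or.inl hh⟩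
      obtain ⟨y, hy, hyx⟩ := (hf u).surjOn hx2
      exact ⟨y, u, hu, Or.inr ⟨hy, hyx⟩⟩
  · rintro a a' ⟨u, hu, h1⟩ ⟨u', hu', h2⟩
    by_cases huu : u = u'
    · subst huu
      rcases h1 with h1 | h1 <;> rcases h2 with h2 | h2
      · left; rw [h1, h2]
      · right; left; rw [h1, h2]; exact hτ u
      · right; left; rw [h1, h2]; exact (hτ u).symm
      · left; rw [h1, h2]
    · right; right
      intro p
      obtain ⟨p1, hp1⟩ := near u a h1
      obtain ⟨p2, hp2⟩ := near u' a' h2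
      have := hU u hu u' hu' huu ((p1.append p).append p2.reverse)
      rw [Walk.length_append, Walk.length_append, Walk.length_reverse] at this
      omega
  · have hR : R = ↑(U ∪ U.image τ) := by
      ext a
      simp only [R, Set.mem_ofPred_eq, Finset.coe_union, Set.mem_union, Finset.mem_coe, Finset.coe_image,
        Set.mem_image]
      constructor
      · rintro ⟨u, hu, h | h⟩
        · left; rw [h]; exact hu
        · right; exact ⟨u, hu, h.symm⟩
      · rintro (h | ⟨u, hu, h⟩)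
        · exact ⟨a, h, Or.inl rfl⟩
        · exact ⟨u, hu, Or.inr h.symm⟩
    change R.ncard = _
    rw [hR, Set.ncard_coe_finset, Finset.card_union_of_disjoint, Finset.card_image_of_injOn]
    · ring
    · intro u hu u' hu' h
      apply hU' u hu u' hu' (Walk.cons (hτ u) (Walk.cons (show G.Adj (τ u) u' by rw [show τ u = τ u' from h]; exact (hτ u').symm) Walk.nil))
      simp only [Walk.length_cons, Walk.length_nil]
      omega
    · rw [Finset.disjoint_left]
      intro a ha ha'
      rw [Finset.mem_image] at ha'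
      obtain ⟨u, hu, h⟩ := ha'
      have hadj : G.Adj u a := by rw [← h]; exact hτ u
      have := hU' u hu a ha (Walk.cons hadj Walk.nil) (by simp only [Walk.length_cons, Walk.length_nil]; omega)
      exact hadj.ne this

end Pool.Agent.R5.AO
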