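import Mathlib
import Pool.Agent.R5.AO.Build

set_option autoImplicit false

namespace Pool.Agent.R5.AO

open SimpleGraph

variable {V : Type*}

/-- a finite set containing the ball of radius `r` -/
noncomputable def ball [Fintype V] (G : SimpleGraph V) : ℕ → V → Finset V
  | 0, u => {u}
  | r + 1, u => by classical exact ((insert u (G.neighborSet u).toFinite.toFinset).biUnion (ball G r))

theorem mem_ball_self [Fintype V] (G : SimpleGraph V) (r : ℕ) (u : V) : u ∈ ball G r u := by
  classical
  induction r with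
  | zero => simp [ball]
  | succ r ih =>
    simp only [ball, Finset.mem_biUnion]
    exact ⟨u, Finset.mem_insert_self _ _, ih⟩

theorem mem_ball [Fintype V] (G : SimpleGraph V) (r : ℕ) {u v : V} (p : G.Walk u v)
    (hp : p.length ≤ r) : v ∈ ball G r u := by
  classical
  induction p generalizing r with
  | nil => exact mem_ball_self G r _
  | @cons u x v h p ih =>
    rw [Walk.length_cons] at hp
    obtain ⟨r, rfl⟩ : ∃ r', r = r' + 1 := ⟨r - 1, by omega⟩
    simp only [ball, Finset.mem_biUnion]
    refine ⟨x, Finset.mem_insert_of_mem ?_, ih r (by omega)⟩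
    rw [Set.Finite.mem_toFinset]
    exact h

theorem card_ball [Fintype V] (G : SimpleGraph V) {δ : ℕ} (hδ : ∀ v, (G.neighborSet v).ncard ≤ δ)
    (r : ℕ) (u : V) : (ball G r u).card ≤ (δ + 1) ^ r := by
  classical
  induction r generalizing u with
  | zero => simp [ball]
  | succ r ih =>
    simp only [ball]
    refine (Finset.card_biUnion_le_card_mul _ _ _ (fun v _ => ih v)).trans ?_
    rw [pow_succ, mul_comm]
    apply Nat.mul_le_mul_left
    refine (Finset.card_insert_le _ _).trans ?_
    have : (G.neighborSet u).toFinite.toFinset.card = (G.neighborSet u).ncard := by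
      rw [Set.ncard_eq_toFinset_card _ (Set.toFinite _)]
    rw [this]
    have := hδ u
    omega

theorem exists_far [Fintype V] (G : SimpleGraph V) {δ : ℕ} (hδ : ∀ v, (G.neighborSet v).ncard ≤ δ)
    (r s : ℕ) (hs : s * (δ + 1) ^ r ≤ Fintype.card V) :
    ∃ U : Finset V, U.card = s ∧ ∀ u ∈ U, ∀ u' ∈ U, u ≠ u' → ∀ p : G.Walk u u', r + 1 ≤ p.length := by
  classical
  induction s with
  | zero => exact ⟨∅, by simp, by simp⟩
  | succ s ih =>
    have hpos : 0 < (δ + 1) ^ r := by positivity
    rw [add_mul, one_mul] at hs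
    obtain ⟨U, hU, hfar⟩ := ih (by omega)
    have hcard : (U.biUnion (ball G r)).card ≤ s * (δ + 1) ^ r := by
      rw [← hU]
      exact Finset.card_biUnion_le_card_mul _ _ _ (fun v _ => card_ball G hδ r v)
    obtain ⟨v, hv⟩ : ∃ v, v ∉ U.biUnion (ball G r) := by
      by_contra hall
      push Not at hall
      have : (U.biUnion (ball G r)) = Finset.univ := by
        ext v; simp only [Finset.mem_univ, iff_true]; exact hall v
      rw [this, Finset.card_univ] at hcard
      omega
    have hv' : ∀ u ∈ U, ∀ p : G.Walk u v, r + 1 ≤ p.length := by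
      intro u hu p
      by_contra hlt
      push Not at hlt
      exact hv (Finset.mem_biUnion.2 ⟨u, hu, mem_ball G r p (by omega)⟩)
    have hvU : v ∉ U := fun h => hv (Finset.mem_biUnion.2 ⟨v, h, mem_ball_self G r v⟩)
    refine ⟨insert v U, by rw [Finset.card_insert_of_notMem hvU, hU], ?_⟩
    intro u hu u' hu' hne p
    rw [Finset.mem_insert] at hu hu'
    rcases hu with rfl | hu <;> rcases hu' with rfl | hu'
    · exact absurd rfl hne
    · have := hv' u' hu' p.reverse
      rwa [Walk.length_reverse] at this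
    · exact hv' u hu p
    · exact hfar u hu u' hu' hne p

/-- `t` disjoint copies of the bipartite double cover -/
def blow (G : SimpleGraph V) (t : ℕ) : SimpleGraph (Fin t × Bool × V) where
  Adj x y := x.1 = y.1 ∧ x.2.1 ≠ y.2.1 ∧ G.Adj x.2.2 y.2.2
  symm := by
    constructor
    rintro x y ⟨h1, h2, h3⟩
    exact ⟨h1.symm, h2.symm, h3.symm⟩
  loopless := by
    constructor
    rintro x ⟨-, h, -⟩
    exact h rfl

theorem blow_girth (G : SimpleGraph V) (t : ℕ) {g : ℕ} (hg : Girth G g) : Girth (blow G t) g := by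
  let f : blow G t →g G := ⟨fun x => x.2.2, fun {a b} (h : (blow G t).Adj a b) => h.2.2⟩
  refine girth_of_map f ?_ hg
  rintro ⟨i, b, x⟩ ⟨i', b', y⟩ ⟨i'', b'', z⟩ ⟨h1, h2, -⟩ ⟨h3, h4, -⟩ hne hh
  apply hne
  change x = z at hh
  simp only at h1 h2 h3 h4
  have : b = b'' := by
    revert h2 h4
    cases b <;> cases b' <;> cases b'' <;> simp
  rw [hh, h1, h3, this]

theorem blow_deg [Finite V] (G : SimpleGraph V) (t : ℕ) {δ : ℕ} (hreg : ∀ v, (G.neighborSet v).ncard = δ) :
    ∀ v, ((blow G t).neighborSet v).ncard = δ := by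
  rintro ⟨i, b, x⟩
  rw [← hreg x]
  have : (blow G t).neighborSet (i, b, x) = (fun y => (i, !b, y)) '' G.neighborSet x := by
    ext ⟨i', b', y⟩
    constructor
    · rintro ⟨h1, h2, h3⟩
      simp only at h1 h2 h3
      refine ⟨y, h3, ?_⟩
      rw [← h1]
      revert h2
      cases b <;> cases b' <;> simp
    · rintro ⟨y', h1, h2⟩
      rw [Prod.mk.injEq, Prod.mk.injEq] at h2
      obtain ⟨rfl, rfl, rfl⟩ := h2
      refine ⟨rfl, ?_, h1⟩
      cases b <;> simp
  rw [this, Set.ncard_image_of_injective]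
  intro y y' h
  simp only [Prod.mk.injEq, true_and] at h
  exact h

/-- regular bipartite graphs of all even orders -/
theorem orders [Fintype V] (G : SimpleGraph V) {δ g h D t s n : ℕ} (hreg : ∀ v, (G.neighborSet v).ncard = δ)
    (hδ : 1 ≤ δ) (hg : Girth G g) (h5 : 5 ≤ g) (h1 : 1 ≤ h) (hgh : h + 2 ≤ g) (hD : h + 1 ≤ D) (hD3 : 3 ≤ D)
    (hs : s * (δ + 1) ^ (D + 1) ≤ 2 * t * Fintype.card V) (hn : n + 2 * s = 2 * t * Fintype.card V) :
    ∃ (H : SimpleGraph (Fin n)) (c : Fin n → Bool), (∀ v, (H.neighborSet v).ncard = δ) ∧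
      (∀ x y, H.Adj x y → c x ≠ c y) ∧
      (∀ (x : Fin n) (w : H.Walk x x), w.IsCycle → h * g ≤ (h + 2) * w.length + 2 * h) := by
  classical
  have hcard : Fintype.card (Fin t × Bool × V) = 2 * t * Fintype.card V := by
    rw [Fintype.card_prod, Fintype.card_prod, Fintype.card_fin, Fintype.card_bool]; ring
  obtain ⟨U, hU, hfar⟩ := exists_far (blow G t) (fun v => (blow_deg G t hreg v).le) (D + 1) s
    (by rw [hcard]; exact hs)
  obtain ⟨S, hS⟩ := exists_surg (D := D) (blow_deg G t hreg) hδ (blow_girth G t hg) (by omega) hD3 U hfar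
  have hcard2 : Fintype.card {x // x ∉ S.R} = n := by
    have h1 : Nat.card {x // x ∈ S.Rᶜ} = (S.Rᶜ).ncard := Nat.card_coe_set_eq _
    have h2 := Set.ncard_add_ncard_compl S.R (Set.toFinite _) (Set.toFinite _)
    rw [Nat.card_eq_fintype_card (α := Fin t × Bool × V), hcard, hS, hU] at h2
    rw [Fintype.card_eq_nat_card]
    change Nat.card {x // x ∈ S.Rᶜ} = n
    omega
  let e := S.graph.overFinIso hcard2
  let c : Fin n → Bool := fun x => (e.symm x).1.2.1
  refine ⟨S.graph.overFin hcard2, c, ?_, ?_, ?_⟩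
  · intro v
    have e1 : (S.graph.overFin hcard2).neighborSet v ≃ S.graph.neighborSet (e.symm v) := e.symm.mapNeighborSet v
    rw [← Nat.card_coe_set_eq, Nat.card_congr e1, Nat.card_coe_set_eq,
      S.ncard_nbr (blow_girth G t hg) h5, blow_deg G t hreg]
  · intro x y hxy
    have h2 := S.bip (fun x => x.2.1) (fun x y h => h.2.1) (e.symm x) (e.symm y) (e.symm.map_adj_iff.2 hxy)
    exact h2
  · intro x w hw
    have h3 := S.girth (blow_girth G t hg) h1 hgh hD (w.map e.symm.toHom)
      (hw.map e.symm.injective)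
    rwa [Walk.length_map] at h3

end Pool.Agent.R5.AO
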