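import Mathlib
import Pool.Agent.R5.AO.Far

set_option autoImplicit false

namespace Pool.Agent.R5.AO

open SimpleGraph

/-- `δ`-regular graphs of girth at least `g` and order about `exp (θ g)` for every `g` -/
def Fam (δ : ℕ) (θ : ℝ) : Prop := ∃ C : ℝ, ∀ g : ℕ, ∃ (V : Type) (_ : Fintype V) (_ : Nonempty V)
  (G : SimpleGraph V), (∀ v, (G.neighborSet v).ncard = δ) ∧ Girth G g ∧
    Real.log (Fintype.card V) ≤ θ * g + C

/-- from special orders to all large even orders -/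
theorem core (δ : ℕ) (hδ1 : 1 ≤ δ) (θ : ℝ) (hθ : 0 < θ) (hF : Fam δ θ) (ε : ℝ) (hε : 0 < ε) :
    ∃ n0 : ℕ, ∀ n : ℕ, n0 ≤ n → Even n → ∃ (H : SimpleGraph (Fin n)) (c : Fin n → Bool),
      (∀ v, (H.neighborSet v).ncard = δ) ∧ (∀ x y, H.Adj x y → c x ≠ c y) ∧
      (∀ (x : Fin n) (w : H.Walk x x), w.IsCycle → (1 / θ - ε) * Real.log n ≤ w.length) := by
  classical
  obtain ⟨C, hF⟩ := hF
  -- `2 (1/θ) / (h+2) ≤ ε / 2`
  obtain ⟨h0, hh0⟩ := exists_nat_ge (4 / (θ * ε))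
  obtain ⟨h, hh1, hhε⟩ : ∃ h : ℕ, 1 ≤ h ∧ 4 ≤ θ * ε * h := by
    refine ⟨h0 + 1, by omega, ?_⟩
    rw [div_le_iff₀ (by positivity)] at hh0
    push_cast
    have : 0 < θ * ε := by positivity
    nlinarith
  obtain ⟨D, hD⟩ : ∃ D : ℕ, D = h + 2 := ⟨_, rfl⟩
  obtain ⟨K, hK⟩ : ∃ K : ℕ, K = (δ + 1) ^ (D + 1) := ⟨_, rfl⟩
  have hKpos : 0 < K := by rw [hK]; positivity
  have hKr : (0 : ℝ) < K := by exact_mod_cast hKpos
  obtain ⟨E, hE⟩ : ∃ E : ℝ, E = |C| + Real.log K := ⟨_, rfl⟩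
  have hlK : 0 ≤ Real.log K := Real.log_nonneg (by exact_mod_cast hKpos)
  have hE0 : 0 ≤ E := by rw [hE]; positivity
  -- the bounds for `log m`
  obtain ⟨B1, hB1⟩ := exists_nat_ge (E + θ * (h + 10))
  obtain ⟨B2, hB2⟩ := exists_nat_ge ((2 / ε) * (E / θ + 3 + (1 / θ) * Real.log 2))
  refine ⟨2 * 3 ^ (B1 + B2), fun n hn hev => ?_⟩
  obtain ⟨m, rfl⟩ := hev.two_dvd
  have hm : 3 ^ (B1 + B2) ≤ m := by omega
  have hmpos : 0 < m := lt_of_lt_of_le (by positivity) hm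
  have hmr : (0 : ℝ) < m := by exact_mod_cast hmpos
  have hLm : (B1 : ℝ) + B2 ≤ Real.log m := by
    have h1 : Real.exp ((B1 : ℝ) + B2) ≤ m := by
      calc Real.exp ((B1 : ℝ) + B2) = Real.exp 1 ^ (B1 + B2) := by
            rw [← Real.exp_nat_mul]; push_cast; ring_nf
        _ ≤ 3 ^ (B1 + B2) := by
            apply pow_le_pow_left₀ (Real.exp_pos _).le
            have := Real.exp_one_lt_d9
            linarith
        _ ≤ m := by exact_mod_cast hm
    rwa [Real.le_log_iff_exp_le hmr]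
  have hB2r : (0 : ℝ) ≤ (B2 : ℝ) := Nat.cast_nonneg _
  have hB1r : (0 : ℝ) ≤ (B1 : ℝ) := Nat.cast_nonneg _
  have hhr : (1 : ℝ) ≤ h := by exact_mod_cast hh1
  obtain ⟨X, hX⟩ : ∃ X : ℝ, X = (Real.log m - E) / θ := ⟨_, rfl⟩
  have hXθ : θ * X = Real.log m - E := by rw [hX]; field_simp
  have hXbig : (h : ℝ) + 10 ≤ X := by
    rw [hX, le_div_iff₀ hθ]
    linarith
  have hXnn : 0 ≤ X := by linarith
  obtain ⟨g, hgX, hXg⟩ : ∃ g : ℕ, (g : ℝ) ≤ X ∧ X < g + 1 :=
    ⟨⌊X⌋₊, Nat.floor_le hXnn, Nat.lt_floor_add_one X⟩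
  have hgh : h + 9 ≤ g := by
    have : (h : ℝ) + 9 < g + 0 + 1 := by linarith
    have : ((h + 9 : ℕ) : ℝ) < ((g + 1 : ℕ) : ℝ) := by push_cast; linarith
    have := Nat.cast_lt.1 this
    omega
  obtain ⟨V, i1, hV, G, hreg, hg, hcard⟩ := hF g
  obtain ⟨N, hN⟩ : ∃ N : ℕ, N = Fintype.card V := ⟨_, rfl⟩
  have hNpos : 0 < N := by rw [hN]; exact Fintype.card_pos
  have hNr : (0 : ℝ) < N := by exact_mod_cast hNpos
  rw [← hN] at hcard
  have hKN : K * N ≤ m := by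
    have h1 : Real.log N ≤ Real.log m - Real.log K := by
      have h2 : θ * g ≤ θ * X := mul_le_mul_of_nonneg_left hgX hθ.le
      have h3 : C ≤ |C| := le_abs_self C
      rw [hXθ, hE] at h2
      linarith
    have h4 : Real.log (K * N : ℝ) ≤ Real.log m := by
      rw [Real.log_mul hKr.ne' hNr.ne']; linarith
    have h5 := (Real.log_le_log_iff (by positivity) hmr).1 h4
    exact_mod_cast h5
  -- choice of `t` and `s`
  obtain ⟨t, ht⟩ : ∃ t : ℕ, t = (m + N - 1) / N := ⟨_, rfl⟩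
  have ht1 : m ≤ t * N := by
    have h2 := Nat.div_add_mod (m + N - 1) N
    have h3 := Nat.mod_lt (m + N - 1) hNpos
    rw [← ht, mul_comm] at h2
    omega
  have ht2 : t * N < m + N := by
    have h2 := Nat.div_mul_le_self (m + N - 1) N
    rw [← ht] at h2
    omega
  have hKt : K ≤ t := by
    by_contra hlt
    push Not at hlt
    have h2 : (t + 1) * N ≤ K * N := Nat.mul_le_mul_right _ hlt
    rw [add_mul, one_mul] at h2
    omega
  have hs : (t * N - m) * (δ + 1) ^ (D + 1) ≤ 2 * t * Fintype.card V := by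
    rw [← hN, ← hK]
    calc (t * N - m) * K ≤ N * K := Nat.mul_le_mul_right _ (by omega)
      _ ≤ N * t := Nat.mul_le_mul_left _ hKt
      _ ≤ 2 * t * N := by nlinarith
  have hn2 : 2 * m + 2 * (t * N - m) = 2 * t * Fintype.card V := by
    rw [← hN, mul_assoc]; omega
  obtain ⟨H, c, h1, h2, h3⟩ := orders G (g := g) (h := h) hreg hδ1 hg (by omega) (by omega) (by omega)
    (by omega) (by omega) hs hn2
  refine ⟨H, c, h1, h2, fun x w hw => ?_⟩
  have h4 := h3 x w hw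
  have h5 : (h : ℝ) * g ≤ (h + 2) * w.length + 2 * h := by exact_mod_cast h4
  have h6 : (h : ℝ) * (X - 3) ≤ (h + 2) * w.length := by
    have : (h : ℝ) * (X - 3) ≤ h * (g - 2) := mul_le_mul_of_nonneg_left (by linarith) (by linarith)
    linarith
  have hlog : Real.log ((2 * m : ℕ) : ℝ) = Real.log 2 + Real.log m := by
    push_cast
    exact Real.log_mul (by norm_num) hmr.ne'
  have hl2 : 0 ≤ Real.log 2 := Real.log_nonneg (by norm_num)
  have hlm : 0 ≤ Real.log m := by linarith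
  rw [hlog]
  have hti : 0 < 1 / θ := by positivity
  have hXe : X = 1 / θ * Real.log m - E / θ := by rw [hX]; field_simp
  have h8 : (2 / ε) * (E / θ + 3 + (1 / θ) * Real.log 2) ≤ Real.log m := by linarith
  have h9 : E / θ + 3 + (1 / θ) * Real.log 2 ≤ ε / 2 * Real.log m := by
    have h10 := mul_le_mul_of_nonneg_left h8 (by positivity : (0 : ℝ) ≤ ε / 2)
    have h11 : ε / 2 * (2 / ε) = 1 := by
      have := hε.ne'
      clear * - this
      field_simp
    rwa [← mul_assoc, h11, one_mul] at h10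
  have hhε2 : 2 * (1 / θ) ≤ ε / 2 * h := by
    rw [mul_one_div, div_le_iff₀ hθ]
    nlinarith
  have h10 : (h + 2 : ℝ) * ((1 / θ - ε) * (Real.log 2 + Real.log m)) ≤ h * (X - 3) := by
    rw [hXe]
    have e1 : (h : ℝ) * (E / θ + 3 + (1 / θ) * Real.log 2) ≤ h * (ε / 2 * Real.log m) :=
      mul_le_mul_of_nonneg_left h9 (by linarith)
    have e2 : 2 * (1 / θ) * Real.log m ≤ ε / 2 * h * Real.log m := mul_le_mul_of_nonneg_right hhε2 hlm
    have e3 : 2 * (1 / θ) * Real.log 2 ≤ ε / 2 * h * Real.log 2 := mul_le_mul_of_nonneg_right hhε2 hl2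
    have e4 : 0 ≤ ε * Real.log m := by positivity
    have e5 : 0 ≤ ε * Real.log 2 := by positivity
    have e6 : 0 ≤ ε * h * Real.log 2 := by positivity
    clear * - e1 e2 e3 e4 e5 e6
    generalize 1 / θ = T at *
    generalize E / θ = F at *
    generalize Real.log (m : ℝ) = M at *
    generalize Real.log 2 = L at *
    linarith
  have h12 : (h + 2 : ℝ) * ((1 / θ - ε) * (Real.log 2 + Real.log m)) ≤ (h + 2) * w.length := by linarith
  exact le_of_mul_le_mul_left h12 (by positivity)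

/-- There is a (finite, simple) `δ`-regular graph of order `n` whose girth is at least `g`. -/
def HasReg (n δ g : ℕ) : Prop :=
  ∃ G : SimpleGraph (Fin n), (∀ v, (G.neighborSet v).ncard = δ) ∧ (g : ℕ∞) ≤ G.egirth

theorem core_reg (δ : ℕ) (hδ1 : 1 ≤ δ) (θ : ℝ) (hθ : 0 < θ) (hF : Fam δ θ) (c : ℝ) (hc : θ < c) :
    ∃ n0 : ℕ, ∀ n : ℕ, n0 ≤ n → Even n → ∀ g : ℕ, c * g ≤ Real.log n → HasReg n δ g := by
  have hc0 : 0 < c := hθ.trans hc
  have hinv : 0 < 1 / θ - 1 / c := by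
    rw [sub_pos]
    exact one_div_lt_one_div_of_lt hθ hc
  obtain ⟨n0, h⟩ := core δ hδ1 θ hθ hF _ hinv
  refine ⟨n0, fun n hn hev g hg => ?_⟩
  obtain ⟨H, _, h1, -, h3⟩ := h n hn hev
  refine ⟨H, h1, (girth_iff g).1 ?_⟩
  intro a w hw
  have h4 := h3 a w hw
  have h5 : (1 / θ - (1 / θ - 1 / c)) * Real.log n = Real.log n / c := by ring
  rw [h5] at h4
  have h6 : (g : ℝ) ≤ Real.log n / c := by
    rw [le_div_iff₀ hc0, mul_comm]; exact hg
  exact_mod_cast h6.trans h4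

end Pool.Agent.R5.AO
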