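import Mathlib
import Pool.Agent.R5.AO.Num
import Pool.Agent.H967R3.Cage.Fam

set_option autoImplicit false

namespace Pool.Agent.R5.AO

open SimpleGraph

theorem famA (q : ℕ) (hq : IsPrimePow q) (δ : ℕ) (hδ1 : 1 ≤ δ) (hδ : δ ≤ q + 1) :
    Fam δ (2 / 3 * Real.log q) := by
  classical
  refine ⟨Real.log 2 + 5 * Real.log q, fun g => ?_⟩
  obtain ⟨i, hi⟩ : ∃ i : ℕ, i = (g + 1) / 4 + 1 := ⟨_, rfl⟩
  obtain ⟨V, i1, i2, G, i3, hV, hreg, hgirth, -, hcard⟩ := Girth967.familyZR q hq i (by omega) δ hδ1 hδ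
  refine ⟨V, i1, hV, G, ?_, ?_, ?_⟩
  · intro v
    rw [← Nat.card_coe_set_eq, Nat.card_eq_fintype_card, SimpleGraph.card_neighborSet_eq_degree]
    exact hreg v
  · have h1 : Girth G (4 * i + 2) := (girth_iff _).2 hgirth
    intro a c hc
    exact le_trans (by omega) (h1 a c hc)
  · have hq2 : 2 ≤ q := hq.two_le
    have hqr : (1 : ℝ) ≤ q := by exact_mod_cast (by omega : 1 ≤ q)
    have hlq : 0 ≤ Real.log q := Real.log_nonneg hqr
    obtain ⟨e, he⟩ : ∃ e : ℕ, e = 3 * i + 1 - (i + 2) / 3 := ⟨_, rfl⟩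
    have h1 : Fintype.card V ≤ 2 * q ^ e := by
      rw [he]
      refine le_trans ?_ hcard
      exact Nat.le_mul_of_pos_left _ (by omega)
    have h2 : 3 * e ≤ 2 * g + 15 := by omega
    have hVpos : (0 : ℝ) < Fintype.card V := by exact_mod_cast Fintype.card_pos
    have h3 : Real.log (Fintype.card V) ≤ Real.log (2 * (q : ℝ) ^ e) := by
      apply Real.log_le_log hVpos
      exact_mod_cast h1
    rw [Real.log_mul (by norm_num) (by positivity), Real.log_pow] at h3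
    have h4 : (e : ℝ) ≤ 2 / 3 * g + 5 := by
      have : ((3 * e : ℕ) : ℝ) ≤ ((2 * g + 15 : ℕ) : ℝ) := by exact_mod_cast h2
      push_cast at this
      linarith
    have h5 : (e : ℝ) * Real.log q ≤ (2 / 3 * g + 5) * Real.log q := mul_le_mul_of_nonneg_right h4 hlq
    linarith

end Pool.Agent.R5.AO
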