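import Mathlib
import Pool.Agent.R5.AO.Num
import Pool.Agent.H7R2.LG.Core

set_option autoImplicit false

namespace Pool.Agent.R5.AO

open SimpleGraph

theorem famB (k : ℕ) (hk : 1 ≤ k) (δ : ℕ) (hδ : δ ≤ 8 ^ k + 1) :
    Fam δ (5 / 8 * Real.log ((8 : ℝ) ^ k)) := by
  classical
  obtain ⟨q, hqk⟩ : ∃ q : ℕ, q = 2 ^ k := ⟨_, rfl⟩
  have hq : IsPrimePow q := by rw [hqk]; exact Nat.prime_two.isPrimePow.pow (by omega)
  have hev : Even q := by rw [hqk]; exact (Nat.even_pow.2 ⟨even_two, by omega⟩)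
  have hq3 : q ^ 3 = 8 ^ k := by rw [hqk, ← pow_mul, mul_comm, pow_mul]; norm_num
  have hδ' : δ ≤ q ^ 3 + 1 := by rw [hq3]; exact hδ
  refine ⟨Real.log (2 * ((q : ℝ) ^ 6 + q ^ 4 + q ^ 2 + 1)) + 2 * Real.log q, fun g => ?_⟩
  obtain ⟨V, i1, hV, G, i3, hreg, hgirth, -, hcard⟩ :=
    Pool.Agent.H7R2.LG.core4even q hq hev δ hδ' (g / 4 + 1) (by omega)
  refine ⟨V, i1, hV, G, ?_, ?_, ?_⟩
  · intro v
    rw [← Nat.card_coe_set_eq, Nat.card_eq_fintype_card, SimpleGraph.card_neighborSet_eq_degree]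
    exact hreg v
  · have h1 : Girth G (4 * (g / 4 + 1)) := (girth_iff _).2 hgirth
    intro a c hc
    exact le_trans (by omega) (h1 a c hc)
  · have hq2 : 2 ≤ q := hq.two_le
    have hqr : (1 : ℝ) ≤ q := by exact_mod_cast (by omega : 1 ≤ q)
    have hlq : 0 ≤ Real.log q := Real.log_nonneg hqr
    obtain ⟨e, he⟩ : ∃ e : ℕ, e = 2 * (4 * (g / 4 + 1 - 1) - (g / 4 + 1 - 1) / 4) := ⟨_, rfl⟩
    rw [← he] at hcard
    have h2 : 8 * e ≤ 15 * g + 16 := by omega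
    have hVpos : (0 : ℝ) < Fintype.card V := by exact_mod_cast Fintype.card_pos
    have h3 : Real.log (Fintype.card V) ≤ Real.log ((2 * ((q : ℝ) ^ 6 + q ^ 4 + q ^ 2 + 1)) * (q : ℝ) ^ e) := by
      apply Real.log_le_log hVpos
      have : (Fintype.card V : ℝ) ≤ ((2 * ((q ^ 6 + q ^ 4 + q ^ 2 + 1) * q ^ e) : ℕ) : ℝ) := by
        exact_mod_cast hcard
      push_cast at this
      rw [mul_assoc]
      exact this
    rw [Real.log_mul (by positivity) (by positivity), Real.log_pow] at h3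
    have h4 : (e : ℝ) ≤ 15 / 8 * g + 2 := by
      have : ((8 * e : ℕ) : ℝ) ≤ ((15 * g + 16 : ℕ) : ℝ) := by exact_mod_cast h2
      push_cast at this
      linarith
    have h5 : (e : ℝ) * Real.log q ≤ (15 / 8 * g + 2) * Real.log q := mul_le_mul_of_nonneg_right h4 hlq
    have h6 : Real.log ((8 : ℝ) ^ k) = 3 * Real.log q := by
      have : ((8 : ℝ) ^ k) = (q : ℝ) ^ 3 := by exact_mod_cast hq3.symm
      rw [this, Real.log_pow]; norm_num
    rw [h6]
    linarith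

end Pool.Agent.R5.AO
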