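import Mathlib

set_option autoImplicit false

namespace Pool.Agent.R5.AO

theorem step (a q : ℕ) (hq : IsPrimePow q) (h : q ^ 58 ≤ a ^ 63) (x : ℕ) (h1 : a ≤ x) (h2 : x ≤ q) :
    ∃ q, IsPrimePow q ∧ x ≤ q ∧ q ^ 58 ≤ x ^ 63 :=
  ⟨q, hq, h2, h.trans (Nat.pow_le_pow_left h1 63)⟩

theorem pp_of (p k q : ℕ) (hp : p.Prime) (hk : 0 < k) (h : p ^ k = q) : IsPrimePow q :=
  (isPrimePow_nat_iff q).mpr ⟨p, k, hp, hk, h⟩

theorem exists_primePow (x : ℕ) (hx : 2 ≤ x) : ∃ q, IsPrimePow q ∧ x ≤ q ∧ q ^ 58 ≤ x ^ 63 := by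
  rcases le_or_gt 3109 x with h | h
  · obtain ⟨p, hp, h1, h2⟩ := Nat.exists_prime_lt_and_le_two_mul x (by omega)
    refine ⟨p, hp.isPrimePow, h1.le, ?_⟩
    calc p ^ 58 ≤ (2 * x) ^ 58 := Nat.pow_le_pow_left h2 58
      _ = 2 ^ 58 * x ^ 58 := by rw [mul_pow]
      _ ≤ x ^ 5 * x ^ 58 := by
          apply Nat.mul_le_mul_right
          calc 2 ^ 58 ≤ 3109 ^ 5 := by norm_num
            _ ≤ x ^ 5 := Nat.pow_le_pow_left h 5
      _ = x ^ 63 := by rw [← pow_add]
  · have hP : ∀ p : ℕ, p.Prime → IsPrimePow p := fun p hp => hp.isPrimePow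
    rcases le_or_gt x 2 with c | c; · exact step 2 2 (hP 2 (by norm_num)) (by norm_num) x hx c
    rcases le_or_gt x 3 with c' | c'; · exact step 3 3 (hP 3 (by norm_num)) (by norm_num) x (by omega) c'
    rcases le_or_gt x 4 with c | c; · exact step 4 4 (pp_of 2 2 4 (by norm_num) (by norm_num) (by norm_num)) (by norm_num) x (by omega) c
    rcases le_or_gt x 5 with c' | c'; · exact step 5 5 (hP 5 (by norm_num)) (by norm_num) x (by omega) c'
    rcases le_or_gt x 7 with c | c; · exact step 6 7 (hP 7 (by norm_num)) (by norm_num) x (by omega) c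
    rcases le_or_gt x 8 with c' | c'; · exact step 8 8 (pp_of 2 3 8 (by norm_num) (by norm_num) (by norm_num)) (by norm_num) x (by omega) c'
    rcases le_or_gt x 9 with c | c; · exact step 9 9 (pp_of 3 2 9 (by norm_num) (by norm_num) (by norm_num)) (by norm_num) x (by omega) c
    rcases le_or_gt x 11 with c' | c'; · exact step 10 11 (hP 11 (by norm_num)) (by norm_num) x (by omega) c'
    rcases le_or_gt x 13 with c | c; · exact step 12 13 (hP 13 (by norm_num)) (by norm_num) x (by omega) c
    rcases le_or_gt x 16 with c' | c'; · exact step 14 16 (pp_of 2 4 16 (by norm_num) (by norm_num) (by norm_num)) (by norm_num) x (by omega) c'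
    rcases le_or_gt x 19 with c | c; · exact step 17 19 (hP 19 (by norm_num)) (by norm_num) x (by omega) c
    rcases le_or_gt x 23 with c' | c'; · exact step 20 23 (hP 23 (by norm_num)) (by norm_num) x (by omega) c'
    rcases le_or_gt x 29 with c | c; · exact step 24 29 (hP 29 (by norm_num)) (by norm_num) x (by omega) c
    rcases le_or_gt x 37 with c' | c'; · exact step 30 37 (hP 37 (by norm_num)) (by norm_num) x (by omega) c'
    rcases le_or_gt x 47 with c | c; · exact step 38 47 (hP 47 (by norm_num)) (by norm_num) x (by omega) c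
    rcases le_or_gt x 61 with c' | c'; · exact step 48 61 (hP 61 (by norm_num)) (by norm_num) x (by omega) c'
    rcases le_or_gt x 83 with c | c; · exact step 62 83 (hP 83 (by norm_num)) (by norm_num) x (by omega) c
    rcases le_or_gt x 113 with c' | c'; · exact step 84 113 (hP 113 (by norm_num)) (by norm_num) x (by omega) c'
    rcases le_or_gt x 167 with c | c; · exact step 114 167 (hP 167 (by norm_num)) (by norm_num) x (by omega) c
    rcases le_or_gt x 251 with c' | c'; · exact step 168 251 (hP 251 (by norm_num)) (by norm_num) x (by omega) c'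
    rcases le_or_gt x 401 with c | c; · exact step 252 401 (hP 401 (by norm_num)) (by norm_num) x (by omega) c
    rcases le_or_gt x 661 with c' | c'; · exact step 402 661 (hP 661 (by norm_num)) (by norm_num) x (by omega) c'
    rcases le_or_gt x 1151 with c | c; · exact step 662 1151 (hP 1151 (by norm_num)) (by norm_num) x (by omega) c
    rcases le_or_gt x 2099 with c' | c'; · exact step 1152 2099 (hP 2099 (by norm_num)) (by norm_num) x (by omega) c'
    exact step 2100 3109 (hP 3109 (by norm_num)) (by norm_num) x (by omega) (by omega)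


end Pool.Agent.R5.AO
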